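import Pool.Agent.KS6_26.E.Pair
import Pool.Agent.KS6_26.D.Multi
import Pool.Graph.R_seed8.TH812.GV2.Vojta

/-!
Points on C-pairs over function fields: places of high contact and of low contact.
-/

set_option autoImplicit false

open MvPolynomial FF Pool.Agent.W603.LV Pool.Agent.W603.PV Pool.Agent.TH145.GH
  Pool.Agent.W603.CZ
open Pool.Agent.W602.GT (coords)
open Pool.Agent.KS6_26.D (mn mdeg Blk DI finrank_DI_le exists_Mn mdeg_sigma MHom CoordsP blk_sigma
  aeval_sum MDimLE)
open Pool.Agent.KS6_26.E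

namespace Pool.Agent.KS6_26.N

/-- The number of the places of high contact, for an element with given lower bounds of the
orders. -/
theorem contact_gen {k L : Type} [Field k] [Field L] [Algebra k L] [IsAlgClosed k] [CharZero k]
    [IsFF k L] {z : L} (hz : z ≠ 0) {h g : Place k L → ℤ} {Ht C : ℤ}
    (hh : (Function.support h).Finite) (hhs : ∑ᶠ P, h P = -Ht) (hg : (Function.support g).Finite)
    (hgs : ∑ᶠ P, g P ≤ C) (hg0 : ∀ P, 0 ≤ g P) (hle : ∀ P, h P - g P ≤ P.ord z) (q : ℕ)
    (hq : 0 < q) :
    {P : Place k L | h P + q ≤ P.ord z}.Finite ∧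
      q * (({P : Place k L | h P + q ≤ P.ord z}.ncard : ℕ) : ℤ) ≤ Ht + C := by
  classical
  have hfin1 : (Function.support fun P : Place k L => P.ord z).Finite := finite_support _
  obtain ⟨T, hT⟩ : ∃ T : Finset (Place k L), T = hfin1.toFinset ∪ hh.toFinset ∪
    hg.toFinset := ⟨_, rfl⟩
  have m1 : ∀ P : Place k L, P ∉ T → P.ord z = 0 := fun P hP => by
    by_contra h
    exact hP (by rw [hT]; simp [h])
  have m2 : ∀ P : Place k L, P ∉ T → h P = 0 := fun P hP => by
    by_contra h
    exact hP (by rw [hT]; simp [h])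
  have m3 : ∀ P : Place k L, P ∉ T → g P = 0 := fun P hP => by
    by_contra h
    exact hP (by rw [hT]; simp [h])
  have s1 : ∑ P ∈ T, P.ord z = 0 := sum_ord_finset _ T fun P hP => by
    by_contra h
    exact hP (m1 P h)
  have s2 : ∑ P ∈ T, h P = - Ht := by
    rw [← hhs, finsum_eq_sum_of_support_subset (s := T)]
    intro P hP
    by_contra h
    exact hP (m2 P h)
  have s3 : ∑ P ∈ T, g P ≤ C := by
    rw [← finsum_eq_sum_of_support_subset (s := T)]
    · exact hgs
    intro P hP
    by_contra h
    exact hP (m3 P h)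
  have hsub : {P : Place k L | h P + q ≤ P.ord z} ⊆ (T : Set (Place k L)) := by
    intro P hP
    by_contra hcon
    have h1 := m1 P hcon
    have h2 := m2 P hcon
    have h3 : h P + q ≤ P.ord z := hP
    rw [h1, h2] at h3
    omega
  have hfin := (Finset.finite_toSet T).subset hsub
  refine ⟨hfin, ?_⟩
  rw [Set.ncard_eq_toFinset_card _ hfin]
  have h5 : (q : ℤ) * (hfin.toFinset.card : ℤ) ≤ ∑ P ∈ hfin.toFinset, (P.ord z - h P + g P) := by
    rw [mul_comm, ← smul_eq_mul, Nat.cast_smul_eq_nsmul, ← Finset.sum_const]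
    refine Finset.sum_le_sum fun P hP => ?_
    have h6 : h P + q ≤ P.ord z := by
      rw [Set.Finite.mem_toFinset] at hP
      exact hP
    have h7 := hg0 P
    linarith
  have h6 : ∑ P ∈ hfin.toFinset, (P.ord z - h P + g P) ≤ ∑ P ∈ T, (P.ord z - h P + g P) :=
    Finset.sum_le_sum_of_subset_of_nonneg (fun P hP => by
      rw [Set.Finite.mem_toFinset] at hP
      exact hsub hP) fun P _ _ => by
        have := hle P
        linarith
  have h7 : ∑ P ∈ T, (P.ord z - h P + g P) = Ht + ∑ P ∈ T, g P := by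
    rw [Finset.sum_add_distrib, Finset.sum_sub_distrib, s1, s2]
    ring
  linarith

section multi

variable {k F : Type} [Field k] [Field F] [Algebra k F] [IsAlgClosed k] [CharZero k] [IsFF k F]
  {ι S : Type} [DecidableEq S] [Fintype S] {β : ι → S} {n : S → ℕ} {en : ∀ s, Fin (n s + 1) → ι}

/-- The number of the places of high contact. -/
theorem contact_le (hB : Blk β n en) {M : Finset (ι →₀ ℕ)} {e : S → ℕ}
    (hM : ∀ J ∈ M, mdeg β J = e) (t : (ι →₀ ℕ) → F) :
    ∃ C : ℕ, ∀ (L : Type) [Field L] [Algebra k L] [Algebra F L] [IsScalarTower k F L]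
      [FiniteDimensional F L] (x : ι → L), (∀ s, ∃ j, x (en s j) ≠ 0) → ∀ z : L, z ≠ 0 →
      z = ∑ J ∈ M, algebraMap F L (t J) * mn x J → ∀ q : ℕ, 0 < q →
      {P : Place k L | ∑ s, (e s : ℤ) * pord P (fun j => x (en s j)) + q ≤ P.ord z}.Finite ∧
      q * (({P : Place k L | ∑ s, (e s : ℤ) * pord P (fun j => x (en s j)) + q ≤
        P.ord z}.ncard : ℕ) : ℤ) ≤
        ∑ s, (e s : ℤ) * pht k (fun j => x (en s j)) + C * Module.finrank F L := by
  classical
  obtain ⟨g, hg⟩ : ∃ g : Place k F → ℤ, ∀ v, g v = ∑ u ∈ M, max (-v.ord (t u)) 0 :=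
    ⟨_, fun _ => rfl⟩
  have hg0 : ∀ v, 0 ≤ g v := fun v => by
    rw [hg]
    exact Finset.sum_nonneg fun _ _ => le_max_right _ _
  obtain ⟨S0, hS0⟩ := exists_supp (k := k) M t
  have hgf : {v | g v ≠ 0}.Finite := by
    refine (Finset.finite_toSet S0).subset fun v hv => ?_
    by_contra hcon
    apply hv
    rw [hg]
    refine Finset.sum_eq_zero fun u hu => ?_
    have h1 : v.ord (t u) = 0 := by
      by_contra h
      exact hcon (hS0 u hu v h)
    rw [h1]
    rfl
  obtain ⟨C, hC⟩ := Pool.Agent.TH812.GV2.sum_under (k := k) hg0 hgf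
  refine ⟨C, ?_⟩
  intro L _ _ _ _ _ x hx z hz hzx q hq
  have hL : IsFF k L := isFF_of_finite (F := F)
  obtain ⟨hGf, hGs⟩ := hC L
  have hsupp : ∀ s, (Function.support fun P : Place k L =>
      (e s : ℤ) * pord P (fun j => x (en s j))).Finite := fun s =>
    (pord_finite (k := k) (hx s)).subset fun P hP => by
      rw [Function.mem_support] at hP ⊢
      exact fun h => hP (by rw [h, mul_zero])
  refine contact_gen hz (h := fun P => ∑ s, (e s : ℤ) * pord P (fun j => x (en s j)))
    (g := fun P => (ram F P : ℤ) * g (under F P)) (C := C * Module.finrank F L) ?_ ?_ hGf hGs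
    (fun P => mul_nonneg (by positivity) (hg0 _)) (fun P => ?_) q hq
  · refine (Set.Finite.biUnion (Finset.finite_toSet Finset.univ) fun s _ => hsupp s).subset
      fun P hP => ?_
    rw [Function.mem_support] at hP
    obtain ⟨s, -, hs⟩ := Finset.exists_ne_zero_of_sum_ne_zero hP
    exact Set.mem_iUnion₂.2 ⟨s, Finset.mem_coe.2 (Finset.mem_univ s), hs⟩
  · rw [finsum_sum_comm _ _ fun s _ => hsupp s, ← Finset.sum_neg_distrib]
    refine Finset.sum_congr rfl fun s _ => ?_
    rw [← mul_finsum]
    unfold pht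
    ring
  · have h1 : Ge P (∑ s, (e s : ℤ) * pord P (fun j => x (en s j)) -
        (ram F P : ℤ) * g (under F P)) z := by
      rw [hzx]
      refine Ge.sum _ _ fun J hJ => ?_
      have h2 : Ge P (-((ram F P : ℤ) * g (under F P))) (algebraMap F L (t J)) := by
        by_cases hJ0 : t J = 0
        · left
          rw [hJ0, map_zero]
        · right
          rw [ord_under, ← mul_neg]
          refine mul_le_mul_of_nonneg_left ?_ (by positivity)
          have h3 : -(under F P).ord (t J) ≤ g (under F P) := by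
            rw [hg]
            exact (le_max_left _ 0).trans (Finset.single_le_sum
              (f := fun u => max (-(under F P).ord (t u)) 0) (fun _ _ => le_max_right _ _) hJ)
          linarith
      have h3 := h2.mul (ge_mn hB P x J)
      rw [hM J hJ] at h3
      refine h3.mono ?_
      linarith
    rcases h1 with h1 | h1
    · exact absurd h1 hz
    · exact h1

/-- The number of the places over a finite set. -/
theorem places_over {T : Set (Place k F)} (hT : T.Finite) :
    ∃ C : ℕ, ∀ (L : Type) [Field L] [Algebra k L] [Algebra F L] [IsScalarTower k F L]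
      [FiniteDimensional F L] [IsFF k L], {P : Place k L | under F P ∈ T}.Finite ∧
      ({P : Place k L | under F P ∈ T}.ncard : ℤ) ≤ C * Module.finrank F L := by
  classical
  obtain ⟨g, hg⟩ : ∃ g : Place k F → ℤ, ∀ v, g v = if v ∈ T then 1 else 0 := ⟨_, fun _ => rfl⟩
  have hg0 : ∀ v, 0 ≤ g v := fun v => by
    rw [hg]
    split_ifs <;> norm_num
  have hgf : {v | g v ≠ 0}.Finite := hT.subset fun v hv => by
    by_contra hcon
    exact hv (by rw [hg, if_neg hcon])
  obtain ⟨C, hC⟩ := Pool.Agent.TH812.GV2.sum_under (k := k) hg0 hgf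
  refine ⟨C, ?_⟩
  intro L _ _ _ _ _ _
  obtain ⟨hGf, hGs⟩ := hC L
  have h1 : ∀ P : Place k L, under F P ∈ T → 1 ≤ (ram F P : ℤ) * g (under F P) := fun P hP => by
    rw [hg, if_pos hP, mul_one]
    exact_mod_cast (ram_spec (F := F) P).1
  have hfin : {P : Place k L | under F P ∈ T}.Finite := by
    refine Set.Finite.subset hGf fun P hP => ?_
    have h2 := h1 P hP
    intro h3
    rw [h3] at h2
    norm_num at h2
  refine ⟨hfin, ?_⟩
  rw [Set.ncard_eq_toFinset_card _ hfin]
  refine le_trans ?_ hGs
  rw [finsum_eq_sum_of_support_subset (s := hGf.toFinset)]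
  · calc (hfin.toFinset.card : ℤ) = ∑ P ∈ hfin.toFinset, (1 : ℤ) := by simp
      _ ≤ ∑ P ∈ hfin.toFinset, (ram F P : ℤ) * g (under F P) :=
        Finset.sum_le_sum fun P hP => h1 P (by
          rw [Set.Finite.mem_toFinset] at hP
          exact hP)
      _ ≤ ∑ P ∈ hGf.toFinset, (ram F P : ℤ) * g (under F P) := by
        refine Finset.sum_le_sum_of_subset_of_nonneg (fun P hP => ?_) fun P _ _ =>
          mul_nonneg (by positivity) (hg0 _)
        rw [Set.Finite.mem_toFinset] at hP ⊢
        have h2 := h1 P hP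
        intro h3
        rw [h3] at h2
        norm_num at h2
  · intro P hP
    rw [Set.Finite.coe_toFinset]
    exact hP

end multi

end Pool.Agent.KS6_26.N
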