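import Pool.Agent.KS6_26.N.CampMain
import Pool.Agent.KS6_26.E.ZCor
import Pool.Graph.R_pool_sql_team_seeded_64922ed1.X323.GI.Orb

/-!
The height inequality for points on C-pairs which are preimages under generic maps.
-/

set_option autoImplicit false

open MvPolynomial FF Pool.Agent.W603.LV Pool.Agent.W603.PV Pool.Agent.TH145.GH
  Pool.Agent.W603.CZ
open Pool.Agent.W602.GT (coords)
open Pool.Agent.TH145.MG (DimLE)
open Pool.Agent.KS6_26.D (wh_rename)
open Pool.Agent.KS6_26.E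

namespace Pool.Agent.KS6_26.N

/-- The places at which the point `x` of projective space is not a point of the C-pair with the
boundary `∑ (1 - 1 / q b) D b` (`q b = 0` denoting the multiplicity infinity), where `D b` has, at the
point `x`, an equation of degree `w b` with the value `ψ b`: those at which, for some `b ∈ T`, the
multiplicity `ord (ψ b) - w b * min_j ord (x j)` of the intersection is positive and less than `q b`,
or positive and `q b = 0`. -/
def BadT {k L Λ : Type} [Field k] [Field L] [Algebra k L] {n : ℕ} (T : Finset Λ) (w q : Λ → ℕ)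
    (x : Fin (n + 1) → L) (ψ : Λ → L) : Set (Place k L) :=
  {P | ∃ b ∈ T, w b * pord P x < P.ord (ψ b) ∧
    (q b = 0 ∨ P.ord (ψ b) < w b * pord P x + q b)}

section count

variable {k F L Λ : Type} [Field k] [Field F] [Field L] [Algebra k L] [Algebra F L]
  {n : ℕ}

/-- The number of the places at which a point meets the boundary. -/
theorem count_le {T : Finset Λ} {w q c : Λ → ℕ} {x : Fin (n + 1) → L} {ψ : Λ → L}
    (hc : ∀ b ∈ T, ∀ q : ℕ, 0 < q →
      {P : Place k L | w b * pord P x + q ≤ P.ord (ψ b)}.Finite ∧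
      q * (({P : Place k L | w b * pord P x + q ≤ P.ord (ψ b)}.ncard : ℕ) : ℤ) ≤
        w b * pht k x + c b * Module.finrank F L) :
    (BadT (k := k) T w q x ψ).Finite ∧
    ({P : Place k L | ∃ b ∈ T, w b * pord P x < P.ord (ψ b)}.ncard : ℚ) ≤
      ((BadT (k := k) T w q x ψ).ncard : ℚ) + (∑ b ∈ T, (w b / q b : ℚ)) * pht k x +
        (∑ b ∈ T, (c b : ℚ)) * Module.finrank F L := by
  classical
  obtain ⟨W, hW⟩ : ∃ W : Set (Place k L),
    W = {P : Place k L | ∃ b ∈ T, w b * pord P x < P.ord (ψ b)} := ⟨_, rfl⟩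
  rw [← hW]
  have hWf : W.Finite := by
    have h2 : (⋃ b ∈ T, {P : Place k L | w b * pord P x + (1 : ℕ) ≤ P.ord (ψ b)}).Finite :=
      Set.Finite.biUnion (Finset.finite_toSet _) fun b hb => (hc b hb 1 one_pos).1
    refine h2.subset ?_
    rw [hW]
    rintro P ⟨b, hb, h3⟩
    rw [Set.mem_iUnion₂]
    exact ⟨b, hb, by
      rw [Set.mem_ofPred_eq]
      push_cast
      omega⟩
  have hfinL : (BadT (k := k) T w q x ψ).Finite := by
    refine hWf.subset ?_
    rw [hW]
    rintro P ⟨b, hb, h3, -⟩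
    exact ⟨b, hb, h3⟩
  refine ⟨hfinL, ?_⟩
  obtain ⟨U, hU⟩ : ∃ U : Finset Λ, ∀ b, b ∈ U ↔ b ∈ T ∧ q b ≠ 0 :=
    ⟨T.filter fun b => q b ≠ 0, fun b => by simp⟩
  obtain ⟨Hi, hHi⟩ : ∃ Hi : Λ → Set (Place k L), ∀ b, Hi b =
    {P : Place k L | w b * pord P x + q b ≤ P.ord (ψ b)} := ⟨_, fun _ => rfl⟩
  have hHf : ∀ b ∈ U, (Hi b).Finite ∧ (q b : ℤ) * ((Hi b).ncard : ℤ) ≤
      w b * pht k x + c b * Module.finrank F L := fun b hb => by
    rw [hHi]
    exact hc b ((hU b).1 hb).1 (q b) (Nat.pos_of_ne_zero ((hU b).1 hb).2)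
  have hUf : (⋃ b ∈ U, Hi b).Finite := Set.Finite.biUnion (Finset.finite_toSet _) fun b hb =>
    (hHf b hb).1
  have hsub : W ⊆ BadT (k := k) T w q x ψ ∪ ⋃ b ∈ U, Hi b := by
    rw [hW]
    rintro P ⟨b, hb, h3⟩
    by_cases h4 : q b = 0 ∨ P.ord (ψ b) < w b * pord P x + q b
    · exact Or.inl ⟨b, hb, h3, h4⟩
    · push Not at h4
      right
      rw [Set.mem_iUnion₂]
      exact ⟨b, (hU b).2 ⟨hb, h4.1⟩, by rw [hHi]; exact h4.2⟩
  have h2 : (W.ncard : ℕ) ≤ (BadT (k := k) T w q x ψ).ncard + ∑ b ∈ U, (Hi b).ncard :=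
    (Set.ncard_le_ncard hsub (hfinL.union hUf)).trans ((Set.ncard_union_le _ _).trans
      (Nat.add_le_add_left (Finset.set_ncard_biUnion_le _ _) _))
  have h2' : (W.ncard : ℚ) ≤ (BadT (k := k) T w q x ψ).ncard +
      ∑ b ∈ U, ((Hi b).ncard : ℚ) := by
    exact_mod_cast h2
  obtain ⟨fr, hfr⟩ : ∃ fr : ℚ, fr = Module.finrank F L := ⟨_, rfl⟩
  have hfr0 : 0 ≤ fr := by rw [hfr]; positivity
  have h3 : ∀ b ∈ U, ((Hi b).ncard : ℚ) ≤ (w b / q b : ℚ) * pht k x + c b * fr := by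
    intro b hb
    have h4 : (q b : ℚ) * ((Hi b).ncard : ℚ) ≤ w b * pht k x + c b * fr := by
      rw [hfr]
      exact_mod_cast (hHf b hb).2
    have h5 : (1 : ℚ) ≤ q b := by
      exact_mod_cast Nat.one_le_iff_ne_zero.2 ((hU b).1 hb).2
    have h6 : (0 : ℚ) < q b := lt_of_lt_of_le one_pos h5
    have h7 : ((Hi b).ncard : ℚ) = (q b : ℚ)⁻¹ * ((q b : ℚ) * ((Hi b).ncard : ℚ)) := by
      field_simp
    have h8 : (q b : ℚ)⁻¹ * ((q b : ℚ) * ((Hi b).ncard : ℚ)) ≤
        (q b : ℚ)⁻¹ * (w b * pht k x + c b * fr) :=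
      mul_le_mul_of_nonneg_left h4 (inv_nonneg.2 h6.le)
    have h9 : (q b : ℚ)⁻¹ * (c b * fr) ≤ 1 * (c b * fr) :=
      mul_le_mul_of_nonneg_right (inv_le_one_of_one_le₀ h5) (by positivity)
    have h10 : (w b / q b : ℚ) * pht k x = (q b : ℚ)⁻¹ * (w b * pht k x) := by
      rw [div_eq_inv_mul, mul_assoc]
    rw [h7, h10]
    linarith
  have h4 : ∑ b ∈ U, ((Hi b).ncard : ℚ) ≤ (∑ b ∈ U, (w b / q b : ℚ)) * pht k x +
      (∑ b ∈ T, (c b : ℚ)) * fr := by
    refine (Finset.sum_le_sum h3).trans ?_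
    rw [Finset.sum_add_distrib, Finset.sum_mul]
    refine add_le_add le_rfl ?_
    rw [← Finset.sum_mul]
    refine mul_le_mul_of_nonneg_right ?_ hfr0
    exact Finset.sum_le_sum_of_subset_of_nonneg (fun b hb => ((hU b).1 hb).1) fun _ _ _ =>
      Nat.cast_nonneg _
  have h5 : ∑ b ∈ U, (w b / q b : ℚ) = ∑ b ∈ T, (w b / q b : ℚ) := by
    refine Finset.sum_subset (fun b hb => ((hU b).1 hb).1) fun b hb h => ?_
    have h9 : q b = 0 := by
      by_contra h9
      exact h ((hU b).2 ⟨hb, h9⟩)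
    rw [h9, Nat.cast_zero, div_zero]
  rw [h5] at h4
  rw [← hfr]
  linarith

end count

section comp

variable {F0 F : Type} [Field F0] [Field F] [Algebra F0 F] {n : ℕ} {σ : Type}

/-- The composite of a form with forms. -/
theorem comp_val {L : Type} [Field L] [Algebra F L] [Algebra F0 L] [IsScalarTower F0 F L]
    (G : σ → MvPolynomial (Fin (n + 1)) F) (φ : MvPolynomial σ F0) (x : Fin (n + 1) → L) :
    aeval x (aeval G φ) = aeval (fun a => aeval x (G a)) φ := by
  induction φ using MvPolynomial.induction_on with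
  | C a =>
    rw [aeval_C, aeval_C, IsScalarTower.algebraMap_apply F0 F (MvPolynomial (Fin (n + 1)) F),
      AlgHom.commutes, ← IsScalarTower.algebraMap_apply F0 F L]
  | add p q hp hq => rw [map_add, map_add, map_add, hp, hq]
  | mul_X p i hp => rw [map_mul, map_mul, map_mul, hp, aeval_X, aeval_X]

theorem comp_hom {wt : σ → ℕ} {G : σ → MvPolynomial (Fin (n + 1)) F}
    (hG : ∀ i, (G i).IsHomogeneous (wt i)) {φ : MvPolynomial σ F0} {e : ℕ}
    (hφ : IsWeightedHomogeneous wt φ e) : (aeval G φ).IsHomogeneous e := by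
  rw [aeval_def, eval₂_eq]
  refine IsHomogeneous.sum _ _ _ fun J hJ => ?_
  rw [IsScalarTower.algebraMap_apply F0 F (MvPolynomial (Fin (n + 1)) F), algebraMap_eq]
  refine IsHomogeneous.C_mul ?_ _
  have h1 := hφ (mem_support_iff.1 hJ)
  rw [← h1, Finsupp.weight_apply, Finsupp.sum]
  refine IsHomogeneous.prod _ _ _ fun i _ => ?_
  rw [smul_eq_mul, mul_comm]
  exact (hG i).pow _

end comp

section main

variable {k0 k F0 F : Type} [Field k0] [Field k] [Field F0] [Field F] [Algebra k0 k]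
    [Algebra k F] [Algebra k0 F] [IsScalarTower k0 k F] [Algebra k0 F0] [Algebra F0 F]
    [IsScalarTower k0 F0 F] [IsAlgClosed k] [CharZero k] [IsFF k F]

theorem zorb_main (hfg : ∃ S : Finset F0, IntermediateField.adjoin k0 (S : Set F0) = ⊤) {n : ℕ}
    {A : Type} [Fintype A] (d : A → ℕ) (H : A → MvPolynomial (Fin (n + 1)) F)
    (hH : ∀ a, (H a).IsHomogeneous (d a))
    (hgen : AlgebraicIndependent F0
      fun p : {p : A × (Fin (n + 1) →₀ ℕ) // p.2.degree = d p.1} => (H p.1.1).coeff p.1.2)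
    {Λ : Type} [Fintype Λ] (φ : Λ → MvPolynomial (Fin (n + 1) ⊕ A) F0) (w : Λ → ℕ)
    (hφ : ∀ b, IsWeightedHomogeneous (Sum.elim (fun _ => 1) d) (φ b) (w b)) (q : Λ → ℕ) :
    ∃ C : ℕ, ∀ (L : Type) [Field L] [Algebra k L] [Algebra F L] [Algebra F0 L]
      [IsScalarTower k F L] [IsScalarTower F0 F L] [FiniteDimensional F L]
      (x : Fin (n + 1) → L) (u : A → L) (ψ : Λ → L), x ≠ 0 → (∀ a, u a = aeval x (H a)) →
      (∀ b, ψ b = aeval (Sum.elim x u) (φ b)) → ∀ (T : Finset Λ) (r s f : ℕ) (κ : ℚ),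
      (∀ b ∈ T, ψ b ≠ 0) → Algebra.trdeg F0 (coords F0 x) ≤ r →
      Algebra.trdeg F0 (CoordsB F0 x w T ψ) ≤ s →
      Algebra.trdeg (CoordsB F0 x w T ψ) (IntermediateField.adjoin (CoordsB F0 x w T ψ)
        {z | ∃ a j, x j ≠ 0 ∧ z = u a / x j ^ d a}) ≤ f →
      (∀ B : Finset A, Fintype.card A ≤ B.card + f →
        κ + ∑ b ∈ T, (w b / q b : ℚ) + r + s + 1 ≤ ∑ a ∈ B, ((d a : ℚ) + 1)) →
      (BadT (k := k) T w q x ψ).Finite ∧
      κ * (pht k x : ℚ) ≤ ((BadT (k := k) T w q x ψ).ncard : ℚ) +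
        canDeg k L + C * Module.finrank F L := by
  classical
  obtain ⟨C0, hC0⟩ := zlog_main (k0 := k0) (k := k) hfg d H hH hgen φ w hφ
  have hcomp : ∀ b, (aeval (Sum.elim X H) (φ b) : MvPolynomial (Fin (n + 1)) F).IsHomogeneous
      (w b) := fun b => comp_hom (wt := Sum.elim (fun _ => 1) d) (fun i => by
    rcases i with i | a
    · exact isHomogeneous_X _ _
    · exact hH a) (hφ b)
  choose c hc using fun b => Pool.Agent.X323.GI.contact_le (k := k) (hcomp b)
  refine ⟨C0 + ∑ b, c b, ?_⟩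
  intro L _ _ _ _ _ _ _ x u ψ hx hu hψ T r s f κ hT hr hs hf hκ
  have hL : IsFF k L := isFF_of_finite (F := F)
  have hval : ∀ b, ψ b = aeval x (aeval (Sum.elim X H) (φ b) : MvPolynomial (Fin (n + 1)) F) :=
    fun b => by
    rw [comp_val, hψ]
    congr 2
    funext i
    rcases i with i | a
    · exact (aeval_X x i).symm
    · exact hu a
  obtain ⟨h1, h2⟩ := count_le (k := k) (F := F) (T := T) (w := w) (q := q) (c := c) (x := x)
    (ψ := ψ) (fun b hb p hp => by
      have h3 := hc b L x hx (by rw [← hval]; exact hT b hb) p hp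
      rw [← hval] at h3
      exact h3)
  refine ⟨h1, ?_⟩
  obtain ⟨e, he⟩ : ∃ e : ℤ, e = ⌈κ + ∑ b ∈ T, (w b / q b : ℚ)⌉ := ⟨_, rfl⟩
  have h3 := hC0 L x u ψ hx hu hψ T r s f e hT hr hs hf (fun B hB => by
    have h4 := hκ B hB
    have h5 : e ≤ ∑ a ∈ B, ((d a : ℤ) + 1) - r - s - 1 := by
      rw [he, Int.ceil_le]
      push_cast
      linarith
    linarith)
  have h4 : κ + ∑ b ∈ T, (w b / q b : ℚ) ≤ e := by
    rw [he]
    exact Int.le_ceil _
  have h5 : (0 : ℚ) ≤ pht k x := by exact_mod_cast Pool.Agent.Y735.pht_nonneg hx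
  have h6 : (e : ℚ) * pht k x ≤ {P : Place k L | ∃ b ∈ T, w b * pord P x < P.ord (ψ b)}.ncard +
      canDeg k L + C0 * Module.finrank F L := by exact_mod_cast h3
  have h7 := mul_le_mul_of_nonneg_right h4 h5
  have h8 : (∑ b ∈ T, (c b : ℚ)) * Module.finrank F L ≤
      (∑ b, (c b : ℚ)) * Module.finrank F L :=
    mul_le_mul_of_nonneg_right (Finset.sum_le_sum_of_subset_of_nonneg (Finset.subset_univ _)
      fun _ _ _ => Nat.cast_nonneg _) (by positivity)
  push_cast
  linarith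

/-- The places outside of a finite set. -/
theorem drop_places {T0 : Set (Place k F)} (hT0 : T0.Finite) :
    ∃ C : ℕ, ∀ (L : Type) [Field L] [Algebra k L] [Algebra F L] [IsScalarTower k F L]
      [FiniteDimensional F L] [IsFF k L] (W : Set (Place k L)), W.Finite →
      (W.ncard : ℚ) ≤ ({P | P ∈ W ∧ under F P ∉ T0}.ncard : ℚ) + C * Module.finrank F L := by
  obtain ⟨C1, hC1⟩ := places_over (k := k) hT0
  refine ⟨C1, ?_⟩
  intro L _ _ _ _ _ _ W hW
  obtain ⟨h3, h4⟩ := hC1 L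
  have hsub : W ⊆ {P | P ∈ W ∧ under F P ∉ T0} ∪ {P : Place k L | under F P ∈ T0} := by
    intro P hP
    by_cases h : under F P ∈ T0
    · exact Or.inr h
    · exact Or.inl ⟨hP, h⟩
  have h5 : W.ncard ≤ {P | P ∈ W ∧ under F P ∉ T0}.ncard +
      {P : Place k L | under F P ∈ T0}.ncard :=
    (Set.ncard_le_ncard hsub ((hW.subset fun P hP => hP.1).union h3)).trans
      (Set.ncard_union_le _ _)
  have h6 : (W.ncard : ℤ) ≤ ({P | P ∈ W ∧ under F P ∉ T0}.ncard : ℤ) +
      C1 * Module.finrank F L := by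
    have h7 : (W.ncard : ℤ) ≤ ({P | P ∈ W ∧ under F P ∉ T0}.ncard : ℤ) +
      ({P : Place k L | under F P ∈ T0}.ncard : ℤ) := by exact_mod_cast h5
    linarith
  exact_mod_cast h6

/-- Preimages of C-pairs under generic maps. -/
theorem zorb_prod (hfg : ∃ S : Finset F0, IntermediateField.adjoin k0 (S : Set F0) = ⊤) {n : ℕ}
    {A : Type} [Fintype A] (d : A → ℕ) (H : A → MvPolynomial (Fin (n + 1)) F)
    (hH : ∀ a, (H a).IsHomogeneous (d a))
    (hgen : AlgebraicIndependent F0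
      fun p : {p : A × (Fin (n + 1) →₀ ℕ) // p.2.degree = d p.1} => (H p.1.1).coeff p.1.2)
    {Λ : Type} [Fintype Λ] (g : Λ → MvPolynomial A F0) (w : Λ → ℕ)
    (hg : ∀ b, IsWeightedHomogeneous d (g b) (w b)) (q : Λ → ℕ) :
    ∃ C : ℕ, ∀ (V : Set (MvPolynomial (Fin (n + 1)) F0)) (m : ℕ), DimLE F0 V m →
      ∀ (Y : Set (MvPolynomial A F0)) (j f : ℕ), (∀ p ∈ Y, ∃ e, IsWeightedHomogeneous d p e) →
      (∀ (Ω : Type) [Field Ω] [Algebra F0 Ω] (v : A → Ω), (∀ p ∈ Y, aeval v p = 0) →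
        (∀ b, aeval v (g b) ≠ 0) →
        Algebra.trdeg F0 (IntermediateField.adjoin F0 (Set.range fun b => aeval v (g b))) ≤ j ∧
        Algebra.trdeg (IntermediateField.adjoin F0 (Set.range fun b => aeval v (g b)))
          (IntermediateField.adjoin (IntermediateField.adjoin F0 (Set.range fun b =>
            aeval v (g b))) (Set.range v)) ≤ f) →
      ∀ κ : ℚ, (∀ B : Finset A, Fintype.card A ≤ B.card + f →
        κ + ∑ b, (w b / q b : ℚ) + 2 * m + j + 1 ≤ ∑ a ∈ B, ((d a : ℚ) + 1)) →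
      ∀ (L : Type) [Field L] [Algebra k L] [Algebra F L] [Algebra F0 L]
        [IsScalarTower k F L] [IsScalarTower F0 F L] [FiniteDimensional F L]
        (x : Fin (n + 1) → L), x ≠ 0 → (∀ p ∈ V, aeval x p = 0) →
      (∀ p ∈ Y, aeval (fun a => aeval x (H a)) p = 0) →
      (∀ b, aeval (fun a => aeval x (H a)) (g b) ≠ 0) →
      (BadT (k := k) Finset.univ w q x fun b => aeval (fun a => aeval x (H a)) (g b)).Finite ∧
      κ * (pht k x : ℚ) ≤ ((BadT (k := k) Finset.univ w q x fun b =>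
          aeval (fun a => aeval x (H a)) (g b)).ncard : ℚ) +
        canDeg k L + C * Module.finrank F L := by
  classical
  obtain ⟨C0, hC0⟩ := zlog_prod (k0 := k0) (k := k) hfg d H hH hgen g w hg
  have hcomp : ∀ b, (aeval H (g b) : MvPolynomial (Fin (n + 1)) F).IsHomogeneous (w b) :=
    fun b => comp_hom hH (hg b)
  choose c hc using fun b => Pool.Agent.X323.GI.contact_le (k := k) (hcomp b)
  refine ⟨C0 + ∑ b, c b, ?_⟩
  intro V m hV Y j f hYh hY κ hκ L _ _ _ _ _ _ _ x hx hxV hxY hxg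
  have hL : IsFF k L := isFF_of_finite (F := F)
  obtain ⟨ψ, hψ⟩ : ∃ ψ : Λ → L, ψ = fun b => aeval (fun a => aeval x (H a)) (g b) := ⟨_, rfl⟩
  have hval : ∀ b, ψ b = aeval x (aeval H (g b) : MvPolynomial (Fin (n + 1)) F) :=
    fun b => by rw [comp_val, hψ]
  have hψ0 : ∀ b, ψ b ≠ 0 := fun b => by rw [hψ]; exact hxg b
  obtain ⟨h1, h2⟩ := count_le (k := k) (F := F) (T := Finset.univ) (w := w) (q := q) (c := c)
    (x := x) (ψ := ψ) (fun b hb p hp => by
      have h3 := hc b L x hx (by rw [← hval]; exact hψ0 b) p hp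
      rw [← hval] at h3
      exact h3)
  rw [← hψ]
  refine ⟨h1, ?_⟩
  obtain ⟨e, he⟩ : ∃ e : ℤ, e = ⌈κ + ∑ b, (w b / q b : ℚ)⌉ := ⟨_, rfl⟩
  have h3 := hC0 V m hV Y j f hYh hY e (fun B hB => by
    have h4 := hκ B hB
    have h5 : e ≤ ∑ a ∈ B, ((d a : ℤ) + 1) - 2 * m - j - 1 := by
      rw [he, Int.ceil_le]
      push_cast
      linarith
    linarith) L x hx hxV hxY hxg
  have h4 : κ + ∑ b, (w b / q b : ℚ) ≤ e := by
    rw [he]
    exact Int.le_ceil _
  have h5 : (0 : ℚ) ≤ pht k x := by exact_mod_cast Pool.Agent.Y735.pht_nonneg hx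
  have hset : {P : Place k L | ∃ b, w b * pord P x <
      P.ord (aeval (fun a => aeval x (H a)) (g b))} =
      {P : Place k L | ∃ b ∈ (Finset.univ : Finset Λ), w b * pord P x < P.ord (ψ b)} := by
    rw [hψ]
    simp
  rw [hset] at h3
  have h6 : (e : ℚ) * pht k x ≤ {P : Place k L | ∃ b ∈ (Finset.univ : Finset Λ),
      w b * pord P x < P.ord (ψ b)}.ncard +
      canDeg k L + C0 * Module.finrank F L := by exact_mod_cast h3
  have h7 := mul_le_mul_of_nonneg_right h4 h5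
  push_cast
  linarith

/-- Generic members of linear systems with base points. -/
theorem zorb_base (hfg : ∃ S : Finset F0, IntermediateField.adjoin k0 (S : Set F0) = ⊤) {n : ℕ}
    {A I : Type} [Fintype A] [Fintype I] {d : I × A → ℕ} {G : A → MvPolynomial (Fin (n + 1)) F0}
    {g : A → ℕ} (hG : ∀ a, (G a).IsHomogeneous (g a)) {D : I → ℕ}
    (hD : ∀ i a, d (i, a) + g a = D i) (H : I × A → MvPolynomial (Fin (n + 1)) F)
    (hH : ∀ p, (H p).IsHomogeneous (d p))
    (hgen : AlgebraicIndependent F0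
      fun p : {p : (I × A) × (Fin (n + 1) →₀ ℕ) // p.2.degree = d p.1} =>
        (H p.1.1).coeff p.1.2) (q : I → ℕ) :
    ∃ C : ℕ, ∀ (V : Set (MvPolynomial (Fin (n + 1)) F0)) (m : ℕ), DimLE F0 V m →
      ∀ (L : Type) [Field L] [Algebra k L] [Algebra F L] [Algebra F0 L]
        [IsScalarTower k F L] [IsScalarTower F0 F L] [FiniteDimensional F L]
        (x : Fin (n + 1) → L) (ψ : I → L) (T : Finset I), x ≠ 0 → (∀ p ∈ V, aeval x p = 0) →
      (∃ a, aeval x (G a) ≠ 0) → (∀ i, ψ i = ∑ a, aeval x (G a) * aeval x (H (i, a))) →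
      (∀ i, i ∈ T ↔ ψ i ≠ 0) →
      ∀ κ : ℚ, (∀ B : Finset (I × A), B.card = Fintype.card I →
        κ + ∑ i ∈ T, (D i / q i : ℚ) + 2 * m + T.card + 1 ≤
          ∑ p ∈ B, (d p : ℚ) + Fintype.card I) →
      (BadT (k := k) T D q x ψ).Finite ∧
      κ * (pht k x : ℚ) ≤ ((BadT (k := k) T D q x ψ).ncard : ℚ) +
        canDeg k L + C * Module.finrank F L := by
  classical
  obtain ⟨C0, hC0⟩ := zlog_base (k0 := k0) (k := k) hfg hG hD H hH hgen
  obtain ⟨S, hS⟩ : ∃ S : I → MvPolynomial (Fin (n + 1)) F, ∀ i, S i =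
    ∑ a, map (algebraMap F0 F) (G a) * H (i, a) := ⟨_, fun _ => rfl⟩
  have hcomp : ∀ i, (S i).IsHomogeneous (D i) := fun i => by
    rw [hS]
    refine IsHomogeneous.sum _ _ _ fun a _ => ?_
    have h1 : D i = g a + d (i, a) := by rw [← hD i a, add_comm]
    rw [h1]
    exact ((hG a).map _).mul (hH _)
  choose c hc using fun b => Pool.Agent.X323.GI.contact_le (k := k) (hcomp b)
  refine ⟨C0 + ∑ b, c b, ?_⟩
  intro V m hV L _ _ _ _ _ _ _ x ψ T hx hxV hxG hψ hT κ hκ
  have hL : IsFF k L := isFF_of_finite (F := F)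
  have hval : ∀ b, ψ b = aeval x (S b) := fun b => by
    rw [hψ, hS, map_sum]
    refine Finset.sum_congr rfl fun a _ => ?_
    rw [map_mul, aeval_map_algebraMap]
  obtain ⟨h1, h2⟩ := count_le (k := k) (F := F) (T := T) (w := D) (q := q) (c := c)
    (x := x) (ψ := ψ) (fun b hb p hp => by
      have h3 := hc b L x hx (by rw [← hval]; exact (hT b).1 hb) p hp
      rw [← hval] at h3
      exact h3)
  refine ⟨h1, ?_⟩
  have hTc : ({i | ψ i = 0}.ncard : ℤ) = Fintype.card I - T.card := by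
    have h1 : {i | ψ i = 0}.ncard = (Finset.univ.filter fun i => ψ i = 0).card := by
      rw [← Set.ncard_coe_finset]
      congr 1
      ext a
      simp
    have h2 := Finset.card_filter_add_card_filter_not (s := (Finset.univ : Finset I))
      (fun i => ψ i = 0)
    have h3 : T = Finset.univ.filter fun i => ¬ ψ i = 0 := by
      ext i
      rw [hT, Finset.mem_filter]
      exact ⟨fun h => ⟨Finset.mem_univ _, h⟩, fun h => h.2⟩
    rw [Finset.card_univ] at h2
    rw [h1, h3]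
    omega
  obtain ⟨e, he⟩ : ∃ e : ℤ, e = ⌈κ + ∑ b ∈ T, (D b / q b : ℚ)⌉ := ⟨_, rfl⟩
  have h3 := hC0 V m hV L x ψ hx hxV hxG hψ e (fun B hB => by
    have h4 := hκ B hB
    have h5 : e ≤ ∑ p ∈ B, (d p : ℤ) + Fintype.card I - 2 * m - T.card - 1 := by
      rw [he, Int.ceil_le]
      push_cast
      linarith
    rw [hTc]
    linarith)
  have h4 : κ + ∑ b ∈ T, (D b / q b : ℚ) ≤ e := by
    rw [he]
    exact Int.le_ceil _
  have h5 : (0 : ℚ) ≤ pht k x := by exact_mod_cast Pool.Agent.Y735.pht_nonneg hx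
  have hset : {P : Place k L | ∃ i, ψ i ≠ 0 ∧ D i * pord P x < P.ord (ψ i)} =
      {P : Place k L | ∃ b ∈ T, D b * pord P x < P.ord (ψ b)} := by
    ext P
    simp only [Set.mem_ofPred_eq, hT]
  rw [hset] at h3
  have h6 : (e : ℚ) * pht k x ≤ {P : Place k L | ∃ b ∈ T, D b * pord P x < P.ord (ψ b)}.ncard +
      canDeg k L + C0 * Module.finrank F L := by exact_mod_cast h3
  have h7 := mul_le_mul_of_nonneg_right h4 h5
  have h8 : (∑ b ∈ T, (c b : ℚ)) * Module.finrank F L ≤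
      (∑ b, (c b : ℚ)) * Module.finrank F L :=
    mul_le_mul_of_nonneg_right (Finset.sum_le_sum_of_subset_of_nonneg (Finset.subset_univ _)
      fun _ _ _ => Nat.cast_nonneg _) (by positivity)
  push_cast
  linarith

end main

end Pool.Agent.KS6_26.N
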