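import Pool.Agent.KS6_26.N.Camp2
import Pool.Graph.R_seed8.Y741.UFin2

/-!
Points on generic C-pairs of large multiplicities, off the exceptional lines.
-/

set_option autoImplicit false

open MvPolynomial FF Pool.Agent.W603.LV Pool.Agent.W603.PV Pool.Agent.TH145.GH
  Pool.Agent.W603.CZ
open Pool.Agent.W602.GT (coords)
open Pool.Agent.Y741 (IsLine Pts Bd)
open LinearAlgebra.Projectivization

namespace Pool.Agent.KS6_26.N

/-- A lower bound of the degree of the canonical divisor. -/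
theorem canDeg_lower {k F : Type} [Field k] [Field F] [Algebra k F] [IsAlgClosed k] [CharZero k]
    [IsFF k F] : ∃ e : ℕ, ∀ (L : Type) [Field L] [Algebra k L] [Algebra F L] [IsScalarTower k F L]
      [FiniteDimensional F L] [IsFF k L], -((e : ℤ) * Module.finrank F L) ≤ canDeg k L := by
  obtain ⟨t, ht⟩ := IsFF.exists_transcendental (k := k) (K := F)
  refine ⟨(2 * hgt k t).toNat, ?_⟩
  intro L _ _ _ _ _ _
  have h1 := canDeg_ge (k := k) (K := L) (t := algebraMap F L t)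
    ((transcendental_algebraMap_iff (algebraMap F L).injective).2 ht)
  rw [hgt_algebraMap] at h1
  have h2 : (2 * hgt k t) ≤ ((2 * hgt k t).toNat : ℤ) := Int.self_le_toNat _
  have h3 : (0 : ℤ) ≤ Module.finrank F L := by positivity
  nlinarith

/-- The height inequality for the point `x` of the C-pair with the boundary
`∑ (1 - 1 / q b) (H b = 0)`, `b ∉ Z`. -/
def IneqZ {k F L A : Type} [Field k] [Field F] [Field L] [Algebra k F] [Algebra k L] [Algebra F L]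
    [IsScalarTower k F L] [IsAlgClosed k] [CharZero k] [IsFF k F] [IsFF k L] [Fintype A]
    [DecidableEq A] {n : ℕ} (H : A → MvPolynomial (Fin (n + 1)) F) (d q : A → ℕ)
    (T0 : Set (Place k F)) (c B : ℕ) (Z : Finset A) (x : Fin (n + 1) → L) : Prop :=
  (BadT (k := k) Zᶜ d q x fun b => aeval x (H b)).Finite ∧
    (1 - c * ∑ b ∈ Zᶜ, (d b / q b : ℚ)) * (pht k x : ℚ) ≤
      c * (({P | P ∈ BadT (k := k) Zᶜ d q x (fun b => aeval x (H b)) ∧
        under F P ∉ T0}.ncard : ℚ) + canDeg k L) + B * Module.finrank F L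

/-- From log pairs to C-pairs. -/
theorem ineqZ_of {k F A : Type} [Field k] [Field F] [Algebra k F] [IsAlgClosed k] [CharZero k]
    [IsFF k F] [Fintype A] [DecidableEq A] {n : ℕ} {H : A → MvPolynomial (Fin (n + 1)) F}
    {d : A → ℕ} (hH : ∀ a, (H a).IsHomogeneous (d a)) (q : A → ℕ) {T0 : Set (Place k F)}
    (hT0 : T0.Finite) (c B0 : ℕ) :
    ∃ B : ℕ, ∀ (L : Type) [Field L] [Algebra k L] [Algebra F L] [IsScalarTower k F L]
      [FiniteDimensional F L] [IsFF k L] (x : Fin (n + 1) → L) (Z : Finset A), x ≠ 0 →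
      (∀ b, b ∉ Z → aeval x (H b) ≠ 0) → ∀ c0 ≤ c,
      pht k x ≤ c0 * (canDeg k L +
        {P : Place k L | ∃ b, b ∉ Z ∧ d b * pord P x < P.ord (aeval x (H b))}.ncard) +
          B0 * Module.finrank F L → IneqZ H d q T0 c B Z x := by
  classical
  choose cc hc using fun b => Pool.Agent.X323.GI.contact_le (k := k) (hH b)
  obtain ⟨C1, hC1⟩ := drop_places (k := k) hT0
  obtain ⟨e, he⟩ := canDeg_lower (k := k) (F := F)
  refine ⟨B0 + c * (∑ b, cc b + C1) + c * e, ?_⟩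
  intro L _ _ _ _ _ _ x Z hx hxb c0 hc0 hle
  obtain ⟨h1, h2⟩ := count_le (k := k) (F := F) (T := Zᶜ) (w := d) (q := q) (c := cc) (x := x)
    (ψ := fun b => aeval x (H b)) (fun b hb p hp =>
      hc b L x hx (hxb b (Finset.mem_compl.1 hb)) p hp)
  refine ⟨h1, ?_⟩
  have h3 := hC1 L _ h1
  have h4 := he L
  have hset : {P : Place k L | ∃ b ∈ Zᶜ, d b * pord P x < P.ord (aeval x (H b))} =
      {P : Place k L | ∃ b, b ∉ Z ∧ d b * pord P x < P.ord (aeval x (H b))} := by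
    ext P
    simp only [Finset.mem_compl]
  rw [hset] at h2
  obtain ⟨N, hN⟩ : ∃ N : ℚ, N =
      ({P : Place k L | ∃ b, b ∉ Z ∧ d b * pord P x < P.ord (aeval x (H b))}.ncard : ℚ) :=
    ⟨_, rfl⟩
  have hle' : (pht k x : ℚ) ≤ c0 * (canDeg k L + N) + B0 * Module.finrank F L := by
    rw [hN]
    exact_mod_cast hle
  have h4' : -((e : ℚ) * Module.finrank F L) ≤ canDeg k L := by exact_mod_cast h4
  have hN0 : 0 ≤ N := by rw [hN]; positivity
  rw [← hN] at h2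
  obtain ⟨fr, hfr⟩ : ∃ fr : ℚ, fr = Module.finrank F L := ⟨_, rfl⟩
  have hfr0 : 0 ≤ fr := by rw [hfr]; positivity
  rw [← hfr] at hle' h2 h3 h4'
  obtain ⟨Bd', hBd'⟩ : ∃ Bd' : ℚ, Bd' = ({P | P ∈ BadT (k := k) Zᶜ d q x
    (fun b => aeval x (H b)) ∧ under F P ∉ T0}.ncard : ℚ) := ⟨_, rfl⟩
  rw [← hBd'] at h3 ⊢
  obtain ⟨σ, hσ⟩ : ∃ σ : ℚ, σ = ∑ b ∈ Zᶜ, (d b / q b : ℚ) := ⟨_, rfl⟩
  rw [← hσ] at h2 ⊢
  rw [← hfr]
  have h5 : ∑ b ∈ Zᶜ, (cc b : ℚ) ≤ ∑ b, (cc b : ℚ) :=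
    Finset.sum_le_sum_of_subset_of_nonneg (Finset.subset_univ _) fun _ _ _ => Nat.cast_nonneg _
  have h6 := mul_le_mul_of_nonneg_right h5 hfr0
  have hc0' : (c0 : ℚ) ≤ c := by exact_mod_cast hc0
  have hc00 : (0 : ℚ) ≤ c0 := Nat.cast_nonneg _
  have he0 : (0 : ℚ) ≤ e := Nat.cast_nonneg _
  have h7 : (c0 : ℚ) * (canDeg k L + N) ≤ c * (canDeg k L + N) + c * e * fr := by
    have h8 : 0 ≤ canDeg k L + N + e * fr := by linarith
    have h9 := mul_nonneg (sub_nonneg.2 hc0') h8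
    have h10 : 0 ≤ (c0 : ℚ) * (e * fr) := by positivity
    linarith
  have h8 : (c : ℚ) * N ≤ c * (Bd' + C1 * fr + σ * pht k x + (∑ b, (cc b : ℚ)) * fr) :=
    mul_le_mul_of_nonneg_left (by linarith) (Nat.cast_nonneg _)
  push_cast
  linarith

/-- The height inequality for points on generic C-pairs, off the exceptional lines. -/
theorem camp_lines {n : ℕ} (hn : 1 ≤ n) {A : Type} [Fintype A] [DecidableEq A] {d : A → ℕ}
    (hd0 : ∀ a, 0 < d a) :
    ∃ c : ℕ, ∀ (k0 k F0 F : Type) [Field k0] [Field k] [Field F0] [Field F] [IsAlgClosed k]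
      [CharZero k] [Algebra k0 k] [Algebra k F] [Algebra k0 F] [IsScalarTower k0 k F]
      [Algebra k0 F0] [Algebra F0 F] [IsScalarTower k0 F0 F] [IsFF k F],
      (∃ S : Finset F0, IntermediateField.adjoin k0 (S : Set F0) = ⊤) →
      ∀ (H : A → MvPolynomial (Fin (n + 1)) F), (∀ a, (H a).IsHomogeneous (d a)) →
      (AlgebraicIndependent F0 fun p : (a : A) × {I : Fin (n + 1) →₀ ℕ // I.degree = d a} =>
        (H p.1).coeff p.2.1) → ∀ (q : A → ℕ) (T0 : Set (Place k F)), T0.Finite →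
      ∃ B : ℕ, ∀ (Ω : Type) [Field Ω] [Algebra F Ω] [IsAlgClosed Ω],
        (∀ (L : Type) [Field L] [Algebra k L] [Algebra F L] [IsScalarTower k F L]
          [FiniteDimensional F L] [IsFF k L] (φ : L →ₐ[F] Ω) (x : Fin (n + 1) → L)
          (Z : Finset A), x ≠ 0 → (∀ a, a ∈ Z ↔ aeval x (H a) = 0) →
          3 * n + 3 ≤ 2 * ∑ a, d a + Z.card →
          IneqZ H d q T0 c B Z x ∨
          ∃ W, (IsLine (fun a => map (algebraMap F Ω) (H a)) Z W ∧
            (Pts W ∩ Bd (fun a => map (algebraMap F Ω) (H a)) Z).encard ≤ 2) ∧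
            (fun j => φ (x j)) ∈ W) ∧
        (∀ Z : Finset A, 3 * n + 3 ≤ 2 * ∑ a, d a + Z.card →
          (2 * n + 1 ≤ ∑ a, d a + Z.card ∨
            (Z = Finset.univ ∧ 2 * n ≤ ∑ a, d a + Z.card + 1)) →
          ∀ W, ¬ (IsLine (fun a => map (algebraMap F Ω) (H a)) Z W ∧
            (Pts W ∩ Bd (fun a => map (algebraMap F Ω) (H a)) Z).encard ≤ 2)) ∧
        ∀ (K : Type) [Field K] [Algebra Ω K] (w : ℕ) (y : Fin (n + 1) → K) (Z : Finset A),
          0 < w → 3 * n + 3 ≤ 2 * ∑ a, d a + Z.card →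
          2 * n + 2 ≤ ∑ a, d a + Z.card + w → Algebra.trdeg Ω K = w → y ≠ 0 →
          Algebra.IsAlgebraic (coords Ω y) K →
          (∀ a, a ∈ Z ↔ aeval y (map (algebraMap F Ω) (H a)) = 0) →
          ∃ (G : MvPolynomial (Fin (n + 1)) Ω) (e : ℕ), G.IsHomogeneous e ∧ aeval y G ≠ 0 ∧
            ∀ (L : Type) [Field L] [Algebra k L] [Algebra F L] [IsScalarTower k F L]
              [FiniteDimensional F L] [IsFF k L] (φ : L →ₐ[F] Ω) (x : Fin (n + 1) → L), x ≠ 0 →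
              (∀ a ∈ Z, aeval x (H a) = 0) → eval (fun j => φ (x j)) G ≠ 0 →
              IneqZ H d q T0 c B Z x := by
  classical
  obtain ⟨P, hP⟩ : ∃ P : Finset (Finset A), ∀ Z, Z ∈ P ↔ 3 * n + 3 ≤ 2 * ∑ a, d a + Z.card :=
    ⟨Finset.univ.filter fun Z => 3 * n + 3 ≤ 2 * ∑ a, d a + Z.card, fun Z => by simp⟩
  choose cZ hcZ using fun (Z : P) => Pool.Agent.Y741.generic_vojta hn hd0 Z.1 ((hP _).1 Z.2)
  refine ⟨∑ Z, cZ Z, ?_⟩
  intro k0 k F0 F _ _ _ _ _ _ _ _ _ _ _ _ _ _ hfg H hH hgen q T0 hT0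
  choose BZ hBZ using fun Z => hcZ Z k0 k F0 F hfg H hH hgen
  choose B1 hB1 using fun Z : P => ineqZ_of (k := k) hH q hT0 (∑ Z, cZ Z) (BZ Z)
  refine ⟨∑ Z, B1 Z, ?_⟩
  intro Ω _ _ _
  have hczF : CharZero F := charZero_of_injective_algebraMap (algebraMap k F).injective
  have hmono : ∀ (L : Type) [Field L] [Algebra k L] [Algebra F L] [IsScalarTower k F L]
      [FiniteDimensional F L] [IsFF k L] (x : Fin (n + 1) → L) (Z : P),
      IneqZ H d q T0 (∑ Z, cZ Z) (B1 Z) Z.1 x → IneqZ H d q T0 (∑ Z, cZ Z) (∑ Z, B1 Z) Z.1 x := by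
    intro L _ _ _ _ _ _ x Z h
    refine ⟨h.1, h.2.trans ?_⟩
    have h1 : (B1 Z : ℚ) ≤ ((∑ Z, B1 Z : ℕ) : ℚ) := by
      exact_mod_cast Finset.single_le_sum (f := B1) (fun _ _ => Nat.zero_le _) (Finset.mem_univ Z)
    have h2 : (0 : ℚ) ≤ Module.finrank F L := by positivity
    have h3 := mul_le_mul_of_nonneg_right h1 h2
    linarith
  have hcle : ∀ Z : P, cZ Z ≤ ∑ Z, cZ Z := fun Z =>
    Finset.single_le_sum (f := cZ) (fun _ _ => Nat.zero_le _) (Finset.mem_univ Z)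
  refine ⟨?_, fun Z hd h2 => (hBZ ⟨Z, (hP Z).2 hd⟩ Ω).2.1 h2, ?_⟩
  · intro L _ _ _ _ _ _ φ x Z hx hZ hd
    obtain ⟨h1, -, -⟩ := hBZ ⟨Z, (hP Z).2 hd⟩ Ω
    have hxb : ∀ b, b ∉ Z → aeval x (H b) ≠ 0 := fun b hb h => hb ((hZ b).2 h)
    rcases h1 L φ x hx (fun c hc => (hZ c).1 hc) hxb with h2 | h2
    · left
      exact hmono L x ⟨Z, (hP Z).2 hd⟩ (hB1 ⟨Z, (hP Z).2 hd⟩ L x Z hx hxb _ (hcle _) h2)
    · exact Or.inr h2
  · intro K _ _ w y Z hw hd hdw htr hy halg hZ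
    obtain ⟨-, -, h3⟩ := hBZ ⟨Z, (hP Z).2 hd⟩ Ω
    obtain ⟨-, G, e, h5, h6, h7⟩ := h3 K w y hw hdw htr hy halg (fun c hc => (hZ c).1 hc)
      (fun b hb h => hb ((hZ b).2 h))
    refine ⟨G * ∏ b ∈ Zᶜ, map (algebraMap F Ω) (H b), e + ∑ b ∈ Zᶜ, d b,
      h5.mul (IsHomogeneous.prod _ _ _ fun b _ => (hH b).map _), ?_, ?_⟩
    · rw [map_mul, map_prod]
      exact mul_ne_zero h6 (Finset.prod_ne_zero_iff.2 fun b hb h =>
        Finset.mem_compl.1 hb ((hZ b).2 h))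
    · intro L _ _ _ _ _ _ φ x hx hxZ hG
      rw [map_mul, map_prod] at hG
      have hG1 := left_ne_zero_of_mul hG
      have hG2 := right_ne_zero_of_mul hG
      have hxb : ∀ b, b ∉ Z → aeval x (H b) ≠ 0 := by
        intro b hb h
        refine Finset.prod_ne_zero_iff.1 hG2 b (Finset.mem_compl.2 hb) ?_
        rw [eval_map, ← aeval_def]
        have h8 : aeval (fun j => φ (x j)) (H b) = (φ.comp (aeval x)) (H b) := by
          congr 1
          apply MvPolynomial.algHom_ext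
          intro l
          rw [aeval_X, AlgHom.comp_apply, aeval_X]
        rw [h8, AlgHom.comp_apply, h, map_zero]
      exact hmono L x ⟨Z, (hP Z).2 hd⟩ (hB1 ⟨Z, (hP Z).2 hd⟩ L x Z hx hxb _ (hcle _)
        (h7 L φ x hx hxZ hxb hG1))

end Pool.Agent.KS6_26.N
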