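import Pool.Agent.KS6_26.N.Camp
import Pool.Agent.KS6_26.E.Prod
import Pool.Graph.R_seed8.Y735.Comb

/-!
The height inequality for points on C-pairs in products of projective spaces.
-/

set_option autoImplicit false

open MvPolynomial FF Pool.Agent.W603.LV Pool.Agent.W603.PV Pool.Agent.TH145.GH
  Pool.Agent.W603.CZ
open Pool.Agent.W602.GT (coords)
open Pool.Agent.KS6_26.D (mn mdeg Blk DI finrank_DI_le exists_Mn mdeg_sigma MHom CoordsP blk_sigma
  aeval_sum)
open Pool.Agent.KS6_26.E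

namespace Pool.Agent.KS6_26.N

/-- The value at the point `x` of a product of projective spaces of the form `H`. -/
noncomputable def val {F L : Type} [Field F] [Field L] [Algebra F L] {S : Type} {n : S → ℕ}
    (x : ∀ s, Fin (n s + 1) → L) (H : MvPolynomial (Σ s, Fin (n s + 1)) F) : L :=
  aeval (fun i : Σ s, Fin (n s + 1) => x i.1 i.2) H

/-- The multiplicity at the place `P` of the intersection of the point `x` of a product of projective
spaces with the hypersurface `H = 0` of multidegree `e`: the order of `H (x)`, for coordinates of `x`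
with minimal order `0` in each factor. -/
noncomputable def contact {k F L : Type} [Field k] [Field F] [Field L] [Algebra k L] [Algebra F L]
    {S : Type} [Fintype S] {n : S → ℕ} (H : MvPolynomial (Σ s, Fin (n s + 1)) F) (e : S → ℕ)
    (x : ∀ s, Fin (n s + 1) → L) (P : Place k L) : ℤ :=
  P.ord (val x H) - ∑ s, (e s : ℤ) * pord P (x s)

/-- The places at which `x` is not a point of the C-pair with the boundary
`∑ (1 - 1 / q a) (H a = 0)`, `q a = 0` denoting the multiplicity infinity: those at which, for some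
`a` with `H a (x) ≠ 0`, the multiplicity of the intersection is positive and less than `q a`, or
positive and `q a = 0`. -/
def Bad (k : Type) {F L : Type} [Field k] [Field F] [Field L] [Algebra k L] [Algebra F L]
    {S A : Type} [Fintype S] {n : S → ℕ} (H : A → MvPolynomial (Σ s, Fin (n s + 1)) F)
    (d : A → S → ℕ) (q : A → ℕ) (x : ∀ s, Fin (n s + 1) → L) : Set (Place k L) :=
  {P | ∃ a, val x (H a) ≠ 0 ∧ 0 < contact (H a) (d a) x P ∧
    (q a = 0 ∨ contact (H a) (d a) x P < q a)}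

open scoped Classical in
/-- The degree in the factor with index `s` of the orbifold divisor `∑ (1 - 1 / q a) (H a = 0)`, where
the forms `H a` with `H a (x) = 0` count with their degree plus one. -/
noncomputable def orbDeg {F L : Type} [Field F] [Field L] [Algebra F L] {S A : Type} [Fintype A]
    {n : S → ℕ} (H : A → MvPolynomial (Σ s, Fin (n s + 1)) F) (d : A → S → ℕ) (q : A → ℕ)
    (x : ∀ s, Fin (n s + 1) → L) (s : S) : ℚ :=
  ∑ a, if val x (H a) = 0 then (d a s : ℚ) + 1 else (1 - 1 / q a) * d a s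

/-- The indices of the ratios of the coefficients of forms of multidegrees `d a`: the exponents of
multidegrees `d a`, different from `I0 a`. Their number is the dimension of the product of the
projective spaces of forms of multidegrees `d a`. -/
abbrev Rat {S : Type} {n : S → ℕ} {A : Type} (d : A → S → ℕ)
    (I0 : A → (Σ s, Fin (n s + 1)) →₀ ℕ) : Type :=
  {p : A × ((Σ s, Fin (n s + 1)) →₀ ℕ) // (∀ s, ∑ i, p.2 ⟨s, i⟩ = d p.1 s) ∧ p.2 ≠ I0 p.1}

section main

variable {k0 k F0 F : Type} [Field k0] [Field k] [Field F0] [Field F] [Algebra k0 k]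
    [Algebra k F] [Algebra k0 F] [IsScalarTower k0 k F] [Algebra k0 F0] [Algebra F0 F]
    [IsScalarTower k0 F0 F] [IsAlgClosed k] [CharZero k] [IsFF k F]

/-- The points of a product of projective spaces, with forms given up to `δ` conditions. -/
theorem prod_main' (hfg : ∃ S : Finset F0, IntermediateField.adjoin k0 (S : Set F0) = ⊤)
    {S : Type} [Fintype S] {n : S → ℕ} {δ : ℕ}
    {A : Type} [Fintype A] (d : A → S → ℕ) (H : A → MvPolynomial (Σ s, Fin (n s + 1)) F)
    (hH : ∀ a, MHom (H a) (d a)) (I0 : A → (Σ s, Fin (n s + 1)) →₀ ℕ)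
    (h0 : ∀ a, (H a).coeff (I0 a) ≠ 0)
    (htr : (Nat.card (Rat d I0) : Cardinal) ≤
      Algebra.trdeg F0 (IntermediateField.adjoin F0 (Set.range fun p : Rat d I0 =>
        (H p.1.1).coeff p.1.2 / (H p.1.1).coeff (I0 p.1.1))) + δ) :
    ∃ C : ℕ, ∀ (L : Type) [Field L] [Algebra k L] [Algebra F L] [Algebra F0 L]
      [IsScalarTower k F L] [IsScalarTower F0 F L] [FiniteDimensional F L]
      (x : ∀ s, Fin (n s + 1) → L) (r : ℕ) (rs : S → ℕ) (κ : S → ℤ), (∀ s, x s ≠ 0) →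
      Algebra.trdeg F0 (CoordsP F0 x) ≤ r → (∀ s, Algebra.trdeg F0 (coords F0 (x s)) ≤ rs s) →
      (∀ s, κ s + r + rs s + 1 + δ ≤ ∑ a, (d a s : ℤ) + {a | val x (H a) = 0}.ncard) →
      ∑ s, κ s * pht k (x s) ≤
        {P : Place k L | ∃ a, val x (H a) ≠ 0 ∧
          ∑ s, (d a s : ℤ) * pord P (x s) < P.ord (val x (H a))}.ncard +
          canDeg k L + C * Module.finrank F L := by
  classical
  obtain ⟨Mn, hMn⟩ := exists_Mn (Sigma.fst : (Σ s, Fin (n s + 1)) → S) d
  have hfin := finite_Jx (R := Set.univ) hMn I0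
  obtain ⟨B, hBi, hBc⟩ := free_of (R := Set.univ) (k := F0) (K := F)
    (β := (Sigma.fst : (Σ s, Fin (n s + 1)) → S)) (d := d) (I0 := I0)
    (fun p => (∀ s, ∑ i, p.2 ⟨s, i⟩ = d p.1 s) ∧ p.2 ≠ I0 p.1) (fun p => by
      have h1 : (∀ s, ∑ i, p.2 ⟨s, i⟩ = d p.1 s) ↔ mdeg Sigma.fst p.2 = d p.1 := by
        constructor
        · intro h
          funext s
          rw [mdeg_sigma]
          exact h s
        · intro h s
          rw [← mdeg_sigma, h]
      rw [h1]
      exact ⟨fun h => ⟨h.1, fun _ => h.2⟩, fun h => ⟨h.1, h.2 (Set.mem_univ _)⟩⟩)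
    (fun p => (H p.1).coeff p.2 / (H p.1).coeff (I0 p.1)) htr
  obtain ⟨C, hC⟩ := pair_main (k0 := k0) (k := k) hfg
    (β := (Sigma.fst : (Σ s, Fin (n s + 1)) → S)) (d := d) blk_sigma hMn (I0 := I0)
    (t := fun a J => (H a).coeff J) h0 hBi hBc
  refine ⟨C, ?_⟩
  intro L _ _ _ _ _ _ _ x r rs κ hx hr hrs hκ
  have hLz : CharZero L := charZero_of_injective_algebraMap (algebraMap k L).injective
  choose j0 hj0 using fun s => Function.ne_iff.1 (hx s)
  have hval : ∀ a, val x (H a) =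
      ∑ J ∈ Mn a, algebraMap F L ((H a).coeff J) *
        mn (fun i : Σ s, Fin (n s + 1) => x i.1 i.2) J :=
    fun a => aeval_sum (fun J hJ => (hMn a J).2 ((hH a).mdeg J hJ)) _
  have hm1 : ∀ j : Σ s, Fin (n s + 1), x j.1 j.2 / x j.1 (j0 j.1) ∈ CoordsP F0 x := fun j =>
    IntermediateField.subset_adjoin _ _ ⟨j.1, j.2, j0 j.1, hj0 j.1, rfl⟩
  have hm2 : ∀ s (l : {l : Σ s, Fin (n s + 1) // l.1 = s}),
      x l.1.1 l.1.2 / x l.1.1 (j0 l.1.1) ∈ coords F0 (x s) := by
    rintro s ⟨⟨s', i⟩, rfl⟩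
    exact IntermediateField.subset_adjoin _ _ ⟨i, j0 s', hj0 s', rfl⟩
  exact hC L (fun i : Σ s, Fin (n s + 1) => x i.1 i.2) (fun s => ⟨s, j0 s⟩) (fun _ => rfl)
    (fun s => hj0 s) r rs (finrank_DI_le _ _ hm1 hr)
    (fun s => finrank_DI_le (fun l : {l : Σ s, Fin (n s + 1) // l.1 = s} =>
      x l.1.1 l.1.2 / x l.1.1 (j0 l.1.1)) _ (hm2 s) (hrs s))
    (fun a => val x (H a)) hval κ
    (fun s => by
      have := hκ s
      linarith)

/-- The height inequality for points on C-pairs. -/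
theorem camp_main (hfg : ∃ S : Finset F0, IntermediateField.adjoin k0 (S : Set F0) = ⊤)
    {S : Type} [Fintype S] {n : S → ℕ} {δ : ℕ}
    {A : Type} [Fintype A] (d : A → S → ℕ) (H : A → MvPolynomial (Σ s, Fin (n s + 1)) F)
    (hH : ∀ a, MHom (H a) (d a)) (I0 : A → (Σ s, Fin (n s + 1)) →₀ ℕ)
    (h0 : ∀ a, (H a).coeff (I0 a) ≠ 0)
    (htr : (Nat.card (Rat d I0) : Cardinal) ≤
      Algebra.trdeg F0 (IntermediateField.adjoin F0 (Set.range fun p : Rat d I0 =>
        (H p.1.1).coeff p.1.2 / (H p.1.1).coeff (I0 p.1.1))) + δ) (q : A → ℕ) :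
    ∃ C : ℕ, ∀ (L : Type) [Field L] [Algebra k L] [Algebra F L] [Algebra F0 L]
      [IsScalarTower k F L] [IsScalarTower F0 F L] [FiniteDimensional F L]
      (x : ∀ s, Fin (n s + 1) → L) (r : ℕ) (rs : S → ℕ) (κ : S → ℚ), (∀ s, x s ≠ 0) →
      Algebra.trdeg F0 (CoordsP F0 x) ≤ r → (∀ s, Algebra.trdeg F0 (coords F0 (x s)) ≤ rs s) →
      (∀ s, κ s + r + rs s + 1 + δ ≤ orbDeg H d q x s) →
      (Bad k H d q x).Finite ∧
      ∑ s, κ s * (pht k (x s) : ℚ) ≤
        ((Bad k H d q x).ncard : ℚ) + canDeg k L + C * Module.finrank F L := by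
  classical
  obtain ⟨C0, hC0⟩ := prod_main' (k0 := k0) (k := k) hfg d H hH I0 h0 htr
  obtain ⟨Mn, hMn⟩ := exists_Mn (Sigma.fst : (Σ s, Fin (n s + 1)) → S) d
  choose Cc hc using fun a => contact_le (k := k) (F := F) (blk_sigma (n := n)) (M := Mn a)
    (e := d a) (fun J hJ => (hMn a J).1 hJ) fun J => (H a).coeff J
  refine ⟨C0 + ∑ a, Cc a, ?_⟩
  intro L _ _ _ _ _ _ _ x r rs κ hx hr hrs hκ
  have hval : ∀ a, val x (H a) =
      ∑ J ∈ Mn a, algebraMap F L ((H a).coeff J) *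
        mn (fun i : Σ s, Fin (n s + 1) => x i.1 i.2) J :=
    fun a => aeval_sum (fun J hJ => (hMn a J).2 ((hH a).mdeg J hJ)) _
  have hcx := fun a (ha : val x (H a) ≠ 0) => hc a L (fun i : Σ s, Fin (n s + 1) => x i.1 i.2)
    (fun s => Function.ne_iff.1 (hx s)) (val x (H a)) ha (hval a)
  have hpn : ∀ s, 0 ≤ pht k (x s) := fun s => by
    have hL : IsFF k L := isFF_of_finite (F := F)
    exact Pool.Agent.Y735.pht_nonneg (hx s)
  have h1 := hC0 L x r rs (fun s => ∑ a, (d a s : ℤ) + {a | val x (H a) = 0}.ncard - r - rs s -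
    1 - δ) hx hr hrs (fun s => by linarith)
  obtain ⟨W, hW⟩ : ∃ W : Set (Place k L), W = {P : Place k L | ∃ a, val x (H a) ≠ 0 ∧
    ∑ s, (d a s : ℤ) * pord P (x s) < P.ord (val x (H a))} := ⟨_, rfl⟩
  rw [← hW] at h1
  -- finiteness
  have hfinL : (Bad k H d q x).Finite := by
    have h2 : (⋃ a ∈ (Finset.univ.filter fun a => val x (H a) ≠ 0),
        {P : Place k L | ∑ s, (d a s : ℤ) * pord P (x s) + (1 : ℕ) ≤
          P.ord (val x (H a))}).Finite :=
      Set.Finite.biUnion (Finset.finite_toSet _) fun a ha =>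
        (hcx a (Finset.mem_filter.1 ha).2 1 one_pos).1
    refine h2.subset ?_
    rintro P ⟨a, ha, h3, -⟩
    rw [Set.mem_iUnion₂]
    unfold contact at h3
    exact ⟨a, Finset.mem_filter.2 ⟨Finset.mem_univ _, ha⟩, by
      rw [Set.mem_ofPred_eq]
      push_cast
      omega⟩
  refine ⟨hfinL, ?_⟩
  obtain ⟨T, hT⟩ : ∃ T : Finset A, ∀ a, a ∈ T ↔ val x (H a) ≠ 0 ∧ q a ≠ 0 :=
    ⟨Finset.univ.filter fun a => val x (H a) ≠ 0 ∧ q a ≠ 0, fun a => by simp⟩
  obtain ⟨Hi, hHi⟩ : ∃ Hi : A → Set (Place k L), ∀ a, Hi a =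
    {P : Place k L | ∑ s, (d a s : ℤ) * pord P (x s) + q a ≤ P.ord (val x (H a))} :=
    ⟨_, fun _ => rfl⟩
  have hHf : ∀ a ∈ T, (Hi a).Finite ∧ (q a : ℤ) * ((Hi a).ncard : ℤ) ≤
      ∑ s, (d a s : ℤ) * pht k (x s) + Cc a * Module.finrank F L := fun a ha => by
    rw [hHi]
    exact hcx a ((hT a).1 ha).1 (q a) (Nat.pos_of_ne_zero ((hT a).1 ha).2)
  have hU : (⋃ a ∈ T, Hi a).Finite := Set.Finite.biUnion (Finset.finite_toSet _) fun a ha =>
    (hHf a ha).1
  have hsub : W ⊆ Bad k H d q x ∪ ⋃ a ∈ T, Hi a := by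
    rw [hW]
    rintro P ⟨a, ha, h3⟩
    by_cases h4 : q a = 0 ∨ contact (H a) (d a) x P < q a
    · exact Or.inl ⟨a, ha, by unfold contact; omega, h4⟩
    · push Not at h4
      right
      rw [Set.mem_iUnion₂]
      exact ⟨a, (hT a).2 ⟨ha, h4.1⟩, by
        rw [hHi]
        have h5 := h4.2
        unfold contact at h5
        rw [Set.mem_ofPred_eq]
        omega⟩
  have h2 : (W.ncard : ℕ) ≤ (Bad k H d q x).ncard + ∑ a ∈ T, (Hi a).ncard :=
    (Set.ncard_le_ncard hsub (hfinL.union hU)).trans ((Set.ncard_union_le _ _).trans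
      (Nat.add_le_add_left (Finset.set_ncard_biUnion_le _ _) _))
  have h2' : (W.ncard : ℚ) ≤ (Bad k H d q x).ncard + ∑ a ∈ T, ((Hi a).ncard : ℚ) := by
    exact_mod_cast h2
  obtain ⟨fr, hfr⟩ : ∃ fr : ℚ, fr = Module.finrank F L := ⟨_, rfl⟩
  have hfr0 : 0 ≤ fr := by rw [hfr]; positivity
  have h3 : ∀ a ∈ T, ((Hi a).ncard : ℚ) ≤
      ∑ s, (1 / q a : ℚ) * d a s * pht k (x s) + Cc a * fr := by
    intro a ha
    have h4 : (q a : ℚ) * ((Hi a).ncard : ℚ) ≤ ∑ s, (d a s : ℚ) * pht k (x s) + Cc a * fr := by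
      rw [hfr]
      exact_mod_cast (hHf a ha).2
    have h5 : (1 : ℚ) ≤ q a := by
      exact_mod_cast Nat.one_le_iff_ne_zero.2 ((hT a).1 ha).2
    have h6 : (0 : ℚ) < q a := lt_of_lt_of_le one_pos h5
    have h7 : ((Hi a).ncard : ℚ) = (1 / q a : ℚ) * ((q a : ℚ) * ((Hi a).ncard : ℚ)) := by
      field_simp
    have h8 : (1 / q a : ℚ) * ((q a : ℚ) * ((Hi a).ncard : ℚ)) ≤
        (1 / q a : ℚ) * (∑ s, (d a s : ℚ) * pht k (x s) + Cc a * fr) :=
      mul_le_mul_of_nonneg_left h4 (by positivity)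
    have h9 : (1 / q a : ℚ) * (Cc a * fr) ≤ 1 * (Cc a * fr) :=
      mul_le_mul_of_nonneg_right (by
        rw [div_le_one h6]
        exact h5) (by positivity)
    have h10 : ∑ s, (1 / q a : ℚ) * d a s * pht k (x s) =
        (1 / q a : ℚ) * ∑ s, (d a s : ℚ) * pht k (x s) := by
      rw [Finset.mul_sum]
      exact Finset.sum_congr rfl fun s _ => by ring
    rw [h7, h10]
    linarith
  have h4 : ∑ a ∈ T, ((Hi a).ncard : ℚ) ≤
      ∑ s, (∑ a ∈ T, (1 / q a : ℚ) * d a s) * pht k (x s) + (∑ a, (Cc a : ℚ)) * fr := by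
    refine (Finset.sum_le_sum h3).trans ?_
    rw [Finset.sum_add_distrib, Finset.sum_comm]
    refine add_le_add (le_of_eq (Finset.sum_congr rfl fun s _ => by rw [Finset.sum_mul])) ?_
    rw [← Finset.sum_mul]
    refine mul_le_mul_of_nonneg_right ?_ hfr0
    exact Finset.sum_le_sum_of_subset_of_nonneg (Finset.subset_univ _) fun _ _ _ =>
      Nat.cast_nonneg _
  have h5 : ∀ s, orbDeg H d q x s = ∑ a, (d a s : ℚ) + ({a | val x (H a) = 0}.ncard : ℚ) -
      ∑ a ∈ T, (1 / q a : ℚ) * d a s := by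
    intro s
    have h6 : ({a | val x (H a) = 0}.ncard : ℚ) =
        ∑ a, if val x (H a) = 0 then (1 : ℚ) else 0 := by
      rw [Finset.sum_boole, Set.ncard_eq_toFinset_card']
      congr 2
      ext a
      simp
    have h7 : ∑ a ∈ T, (1 / q a : ℚ) * d a s = ∑ a, if val x (H a) = 0 then (0 : ℚ) else
        (1 / q a : ℚ) * d a s := by
      rw [← Finset.sum_subset (Finset.subset_univ T)]
      · refine Finset.sum_congr rfl fun a ha => ?_
        rw [if_neg ((hT a).1 ha).1]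
      · intro a _ ha
        split_ifs with h8
        · rfl
        · have h9 : q a = 0 := by
            by_contra h9
            exact ha ((hT a).2 ⟨h8, h9⟩)
          rw [h9, Nat.cast_zero, div_zero, zero_mul]
    rw [h6, h7, ← Finset.sum_add_distrib, ← Finset.sum_sub_distrib]
    unfold orbDeg
    refine Finset.sum_congr rfl fun a _ => ?_
    split_ifs
    · ring
    · ring
  have h6 : ∑ s, (∑ a, (d a s : ℚ) + {a | val x (H a) = 0}.ncard - r - rs s - 1 - δ) *
      pht k (x s) ≤ W.ncard + canDeg k L + C0 * fr := by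
    rw [hfr]
    exact_mod_cast h1
  have h7 : ∑ s, κ s * (pht k (x s) : ℚ) ≤
      ∑ s, (∑ a, (d a s : ℚ) + {a | val x (H a) = 0}.ncard - r - rs s - 1 - δ) *
      pht k (x s) - ∑ s, (∑ a ∈ T, (1 / q a : ℚ) * d a s) * pht k (x s) := by
    rw [← Finset.sum_sub_distrib]
    refine Finset.sum_le_sum fun s _ => ?_
    rw [← sub_mul]
    refine mul_le_mul_of_nonneg_right ?_ (by exact_mod_cast hpn s)
    have h8 := hκ s
    rw [h5 s] at h8
    linarith
  rw [← hfr]
  push_cast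
  linarith

/-- The height inequality for the Campana points outside of the places over a finite set. -/
theorem camp_points (hfg : ∃ S : Finset F0, IntermediateField.adjoin k0 (S : Set F0) = ⊤)
    {S : Type} [Fintype S] {n : S → ℕ} {δ : ℕ}
    {A : Type} [Fintype A] (d : A → S → ℕ) (H : A → MvPolynomial (Σ s, Fin (n s + 1)) F)
    (hH : ∀ a, MHom (H a) (d a)) (I0 : A → (Σ s, Fin (n s + 1)) →₀ ℕ)
    (h0 : ∀ a, (H a).coeff (I0 a) ≠ 0)
    (htr : (Nat.card (Rat d I0) : Cardinal) ≤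
      Algebra.trdeg F0 (IntermediateField.adjoin F0 (Set.range fun p : Rat d I0 =>
        (H p.1.1).coeff p.1.2 / (H p.1.1).coeff (I0 p.1.1))) + δ) (q : A → ℕ)
    {T : Set (Place k F)} (hT : T.Finite) :
    ∃ C : ℕ, ∀ (L : Type) [Field L] [Algebra k L] [Algebra F L] [Algebra F0 L]
      [IsScalarTower k F L] [IsScalarTower F0 F L] [FiniteDimensional F L] [IsFF k L]
      (x : ∀ s, Fin (n s + 1) → L) (r : ℕ) (rs : S → ℕ) (κ : S → ℚ), (∀ s, x s ≠ 0) →
      Algebra.trdeg F0 (CoordsP F0 x) ≤ r → (∀ s, Algebra.trdeg F0 (coords F0 (x s)) ≤ rs s) →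
      (∀ s, κ s + r + rs s + 1 + δ ≤ orbDeg H d q x s) →
      (∀ P ∈ Bad k H d q x, under F P ∈ T) →
      ∑ s, κ s * (pht k (x s) : ℚ) ≤ canDeg k L + C * Module.finrank F L := by
  obtain ⟨C0, hC0⟩ := camp_main (k0 := k0) (k := k) hfg d H hH I0 h0 htr q
  obtain ⟨C1, hC1⟩ := places_over (k := k) hT
  refine ⟨C0 + C1, ?_⟩
  intro L _ _ _ _ _ _ _ _ x r rs κ hx hr hrs hκ hB
  obtain ⟨h1, h2⟩ := hC0 L x r rs κ hx hr hrs hκ
  obtain ⟨h3, h4⟩ := hC1 L
  have h5 := Set.ncard_le_ncard (show Bad k H d q x ⊆ {P | under F P ∈ T} from hB) h3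
  have h6 : ((Bad k H d q x).ncard : ℚ) ≤ C1 * Module.finrank F L := by
    have h7 : ((Bad k H d q x).ncard : ℤ) ≤ C1 * Module.finrank F L := by
      have h8 : ((Bad k H d q x).ncard : ℤ) ≤ ({P : Place k L | under F P ∈ T}.ncard : ℤ) := by
        exact_mod_cast h5
      linarith
    exact_mod_cast h7
  push_cast
  linarith

end main

end Pool.Agent.KS6_26.N
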